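import Pool.Agent.H66.AV.TF

/-!
# Row RLO: the number of right inputs depends on finitely many strings
-/

set_option autoImplicit false

namespace Pool.Agent.H80.AVH

open Finset Pool.Agent.H6.NB Pool.Agent.H70.OQ Pool.Agent.H70.EH Pool.Agent.H70.EI Pool.Agent.H78.XQ
open Pool.Agent.H66.IP (Local ins sp dm Good IsZ scl mBp m0p)
open Pool.Agent.H66.IQ
open Pool.Agent.H66.AV
open Pool.Agent.H75.OM (BPos)

theorem pf_RLO (hPLO : Pool.Agent.H66.IQ.T_PLO) (hALG : T_ALG) : T_RLO := by
  intro k G n
  choose m hm using fun x : Fin n → Bool => (hPLO k (G (List.ofFn x))).2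
  refine ⟨univ.sup m + (2 ^ (k + 1) * n + k + 2), fun O O' h => ?_⟩
  have h3 : ∀ x : Fin n → Bool, (G (List.ofFn x)).Proves O (List.ofFn x ∉ alang k O) =
      (G (List.ofFn x)).Proves O' (List.ofFn x ∉ alang k O') := by
    intro x
    have h1 : (G (List.ofFn x)).val O = (G (List.ofFn x)).val O' :=
      hm x O O' fun w hw => h w (hw.trans ((Finset.le_sup (mem_univ x)).trans
        (Nat.le_add_right _ _)))
    have h2 : List.ofFn x ∈ alang k O ↔ List.ofFn x ∈ alang k O' :=
      hALG.2 k (List.ofFn x) O O' fun w hw => h w (by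
        rw [List.length_ofFn] at hw
        exact hw.trans (Nat.le_add_left _ _))
    unfold Prot.Proves
    rw [h1, h2]
  have h4 : (fun x : Fin n → Bool => (G (List.ofFn x)).Proves O (List.ofFn x ∉ alang k O)) =
      fun x => (G (List.ofFn x)).Proves O' (List.ofFn x ∉ alang k O') := funext h3
  have h5 : ∀ p q : (Fin n → Bool) → Prop, p = q →
      (@Finset.filter _ p (fun a => Classical.propDecidable (p a)) univ).card =
        (@Finset.filter _ q (fun a => Classical.propDecidable (q a)) univ).card := by
    rintro p q rfl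
    rfl
  exact h5 _ _ h4

end Pool.Agent.H80.AVH
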